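import Mathlib
import Pool.Agent.Helper222.CPE.Defs
import Pool.Agent.Helper222.CPE.NonBorel
import Pool.Agent.Helper222.CPE.Hard
import Pool.Agent.Helper222.CPE.Coan
import Pool.Agent.Y313.CP.Char
import Pool.Agent.Y313.CP.Fam

open Set Filter Topology MeasureTheory Pool.Agent.Helper222.CPE

namespace Pool.Agent.Results.MP_1073f4_an.ExactClass

/-- The set `C^k(T^n, T^n)` with the uniform topology (`C(T n, T n)` carries the compact-open
topology, which is the topology of uniform convergence because `T n` is a compact metric space). -/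
abbrev CkMap (n : ℕ) (k : ℕ∞) : Type := {f : C(T n, T n) // IsCk n k f}

/-- `CPE^k(T^n)`, as a subset of `C^k(T^n, T^n)`. -/
def CPEk (n : ℕ) (k : ℕ∞) : Set (CkMap n k) := {f | IsCPE (f.1 : T n → T n)}

/-- For every `1 ≤ k ≤ ∞`.
On the circle, `CPE^k(T^1)` is `Π⁰₂`-complete in `C^k(T^1, T^1)`: it is a `G_δ`, every `G_δ` subset
of every metric space is a continuous preimage of it, and it is not an `F_σ`; and a `C^k` circle map
has CPE exactly when no power has a wandering nonempty open set, no iterate is the identity on a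
nonempty open set, and the map is not injective.
For `n ≥ 2` the set `CPE^k(T^n)` is complete coanalytic, in particular not Borel. -/
theorem result (k : ℕ∞) (hk : 1 ≤ k) :
    (IsGδ (CPEk 1 k) ∧
      (∀ (Z : Type) [MetricSpace Z] (A : Set Z), IsGδ A →
        ∃ r : Z → CkMap 1 k, Continuous r ∧ r ⁻¹' CPEk 1 k = A) ∧
      ¬ IsGδ (CPEk 1 k)ᶜ ∧
      ∀ f : CkMap 1 k, f ∈ CPEk 1 k ↔
        (∀ m : ℕ, 1 ≤ m → ∀ U : Set (T 1), IsOpen U → U.Nonempty →
          ∃ j : ℕ, 1 ≤ j ∧ ((f.1 : T 1 → T 1)^[m * j] '' U ∩ U).Nonempty) ∧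
        (∀ M : ℕ, 1 ≤ M → interior {x | (f.1 : T 1 → T 1)^[M] x = x} = ∅) ∧
        ¬ Function.Injective (f.1 : T 1 → T 1)) ∧
    ∀ n : ℕ, 2 ≤ n →
      (∃ B : Set C(T n, T n), AnalyticSet Bᶜ ∧ CPEk n k = Subtype.val ⁻¹' B) ∧
      (∀ A : Set (ℕ → ℕ), AnalyticSet Aᶜ →
        ∃ r : (ℕ → ℕ) → CkMap n k, Continuous r ∧ r ⁻¹' CPEk n k = A) ∧
      ¬ @MeasurableSet (CkMap n k) (borel _) (CPEk n k) := by
  have hred : ∀ (Z : Type) [MetricSpace Z] (A : Set Z), IsGδ A →
      ∃ r : Z → CkMap 1 k, Continuous r ∧ r ⁻¹' CPEk 1 k = A := by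
    intro Z _ A hA
    obtain ⟨r, hr, hck, hiff⟩ := Pool.Agent.Y313.CP.exists_reduction A hA
    refine ⟨fun z => ⟨r z, hck z k⟩, hr.subtype_mk _, ?_⟩
    ext z
    exact hiff z
  refine ⟨⟨?_, hred, ?_, ?_⟩, ?_⟩
  · have h1 : CPEk 1 k = Subtype.val ⁻¹' {f : C(T 1, T 1) | NW (f : T 1 → T 1) ∧
        Pool.Agent.Y313.CP.NF (f : T 1 → T 1) ∧ Pool.Agent.Y313.CP.XC (f : T 1 → T 1)} := by
      ext f
      exact (Pool.Agent.Y313.CP.cpe_iff k hk f.1 f.1.continuous f.2).2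
    rw [h1]
    exact Pool.Agent.Y313.CP.isGδ_cond.preimage continuous_subtype_val
  · intro hG
    obtain ⟨r, hr, hrA⟩ := hred ℝ {x | Irrational x} IsGδ.setOfPred_irrational
    have h1 : IsGδ {x : ℝ | Irrational x}ᶜ := by
      rw [← hrA, ← preimage_compl]
      exact hG.preimage hr
    have h2 : Dense {x : ℝ | Irrational x}ᶜ := by
      refine Rat.denseRange_cast.mono ?_
      rintro _ ⟨q, rfl⟩ h
      exact h ⟨q, rfl⟩
    have h3 := dense_irrational.inter_of_Gδ IsGδ.setOfPred_irrational h1 h2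
    rw [inter_compl_self] at h3
    obtain ⟨x, hx⟩ := h3.nonempty
    exact hx
  · intro f
    exact (Pool.Agent.Y313.CP.cpe_iff k hk f.1 f.1.continuous f.2).1
  · intro n hn
    obtain ⟨m, rfl⟩ : ∃ m, n = m + 2 := ⟨n - 2, by omega⟩
    have hhard : ∀ A : Set (ℕ → ℕ), AnalyticSet Aᶜ →
        ∃ r : (ℕ → ℕ) → CkMap (m + 2) k, Continuous r ∧ r ⁻¹' CPEk (m + 2) k = A := by
      intro A hA
      obtain ⟨r, hr, hk', hiff⟩ := hard m A hA
      refine ⟨fun z => ⟨r z, hk' z k⟩, hr.subtype_mk _, ?_⟩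
      ext z
      exact hiff z
    refine ⟨⟨{f | IsCPE (f : T (m + 2) → T (m + 2))}, analytic_not_cpe, rfl⟩, hhard, ?_⟩
    intro hmeas
    obtain ⟨D, hD, hDm⟩ := Pool.Agent.Helper222.CPE.NB.exists_analytic_not_measurable
    obtain ⟨r, hr, hrA⟩ := hhard Dᶜ (by rwa [compl_compl])
    let _ : MeasurableSpace (CkMap (m + 2) k) := borel _
    have : BorelSpace (CkMap (m + 2) k) := ⟨rfl⟩
    have h3 : MeasurableSet (Dᶜ) := by
      rw [← hrA]
      exact hr.measurable hmeas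
    exact hDm (by simpa using h3.compl)

end Pool.Agent.Results.MP_1073f4_an.ExactClass
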